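import Mathlib
import Pool.Agent.Lib.MP_14ee70_nt.TY.Defs2

/-!
# Project TY, file C/Ent: entropy on `ZMod Q`

`ent p = ∑ x, negMulLog (p.pm x)`.  All from Jensen for the concave function `negMulLog` or `log`.
`ent_le`: `∑ (1/Q) negMulLog (pm x) ≤ negMulLog (1/Q)`.
`le_ent_of_pm_le`: `-log (pm x) ≥ log Q - s` where `pm x > 0`.
`le_ent_of_sq`: `∑ pm x log (pm x) ≤ log (∑ pm x^2)` (`Law.E_log_le`-type Jensen on the support; if `pm x = 0` both terms vanish).
`ent_mul_ge`: `(map pos (p * q)).pm x = q.E (fun w => (map pos p).pm (x - pos w))` (Fubini, `Law.E_comm`), concavity of `negMulLog`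
(Jensen for the law `q`, use `q.fin'` and `ConcaveOn.le_map_sum`), then sum over `x` (`x ↦ x - pos w` is a bijection).
-/

namespace MP14ee70.TY

open Finset

variable {Q : ℕ} [NeZero Q]

theorem ent_nonneg (p : Law (ZMod Q)) : 0 ≤ ent p :=
  Finset.sum_nonneg fun x _ => Real.negMulLog_nonneg (p.pm_nonneg x) (p.pm_le_one x)

theorem ent_le (p : Law (ZMod Q)) : ent p ≤ Real.log Q := by
  have hQ : (0 : ℝ) < Q := by exact_mod_cast Nat.pos_of_ne_zero (NeZero.ne Q)
  have h := Real.concaveOn_negMulLog.le_map_sum (t := (Finset.univ : Finset (ZMod Q)))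
    (w := fun _ => 1 / (Q : ℝ)) (p := fun x => p.pm x) (fun _ _ => by positivity)
    (by
      rw [Finset.sum_const, Finset.card_univ, ZMod.card, nsmul_eq_mul]
      field_simp) (fun x _ => p.pm_nonneg x)
  simp only [smul_eq_mul] at h
  rw [← Finset.mul_sum, ← Finset.mul_sum, p.sum_pm, mul_one] at h
  have h1 : Real.negMulLog (1 / (Q : ℝ)) = 1 / (Q : ℝ) * Real.log Q := by
    rw [Real.negMulLog, one_div, Real.log_inv]
    ring
  rw [h1] at h
  exact le_of_mul_le_mul_left h (by positivity)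

theorem le_ent_of_pm_le (p : Law (ZMod Q)) (s : ℝ) (h : ∀ x, p.pm x ≤ Real.exp s / Q) :
    Real.log Q - s ≤ ent p := by
  have hQ : (0 : ℝ) < Q := by exact_mod_cast Nat.pos_of_ne_zero (NeZero.ne Q)
  have h1 : ∀ x ∈ (Finset.univ : Finset (ZMod Q)),
      p.pm x * (Real.log Q - s) ≤ Real.negMulLog (p.pm x) := by
    intro x _
    rcases (p.pm_nonneg x).eq_or_lt with h0 | h0
    · rw [← h0]
      simp
    · have h2 := Real.log_le_log h0 (h x)
      rw [Real.log_div (Real.exp_pos s).ne' hQ.ne', Real.log_exp] at h2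
      rw [Real.negMulLog]
      nlinarith
  have h3 := Finset.sum_le_sum h1
  rw [← Finset.sum_mul, p.sum_pm, one_mul] at h3
  exact h3

theorem le_ent_of_sq (p : Law (ZMod Q)) (t : ℝ) (ht : 0 < t) (h : ∑ x, p.pm x ^ 2 ≤ t / Q) :
    Real.log Q - Real.log t ≤ ent p := by
  have hQ : (0 : ℝ) < Q := by exact_mod_cast Nat.pos_of_ne_zero (NeZero.ne Q)
  have hc : (0 : ℝ) < t / Q := by positivity
  have h1 : ∀ x ∈ (Finset.univ : Finset (ZMod Q)),
      p.pm x * (Real.log Q - Real.log t + 1) - p.pm x ^ 2 / (t / Q) ≤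
        Real.negMulLog (p.pm x) := by
    intro x _
    rcases (p.pm_nonneg x).eq_or_lt with h0 | h0
    · rw [← h0]
      simp
    · have h2 := Real.log_le_sub_one_of_pos (div_pos h0 hc)
      rw [Real.log_div h0.ne' hc.ne', Real.log_div ht.ne' hQ.ne'] at h2
      rw [Real.negMulLog]
      have h3 : p.pm x * (p.pm x / (t / Q)) = p.pm x ^ 2 / (t / Q) := by ring
      nlinarith
  have h3 := Finset.sum_le_sum h1
  rw [Finset.sum_sub_distrib, ← Finset.sum_mul, p.sum_pm, one_mul, ← Finset.sum_div] at h3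
  have h4 : (∑ x, p.pm x ^ 2) / (t / Q) ≤ 1 := div_le_one_of_le₀ h hc.le
  have h5 : ent p = ∑ x, Real.negMulLog (p.pm x) := rfl
  rw [h5]
  linarith

theorem ent_mul_ge {S : Type*} [CommMonoid S] (pos : S → ZMod Q)
    (hpos : ∀ x y, pos (x * y) = pos x + pos y) (p q : Law S) :
    ent (Law.map pos p) ≤ ent (Law.map pos (p * q)) := by
  classical
  have h1 : ∀ x, (Law.map pos (p * q)).pm x = q.E (fun w => (Law.map pos p).pm (x - pos w)) := by
    intro x
    unfold Law.pm
    rw [Law.map_E, Law.mul_E, Law.E_comm]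
    congr 1
    funext w
    rw [Law.map_E]
    congr 1
    funext u
    rw [hpos]
    by_cases h : pos u = x - pos w
    · rw [if_pos h, if_pos (by rw [h]; ring)]
    · rw [if_neg h, if_neg]
      intro h'
      exact h (by rw [← h']; ring)
  obtain ⟨ι, _, a, w, hw, hw1, hE⟩ := q.fin'
  have h2 : ∀ x, ∑ i, w i * Real.negMulLog ((Law.map pos p).pm (x - pos (a i))) ≤
      Real.negMulLog ((Law.map pos (p * q)).pm x) := by
    intro x
    rw [h1, hE]
    have h3 := Real.concaveOn_negMulLog.le_map_sum (t := (Finset.univ : Finset ι))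
      (w := w) (p := fun i => (Law.map pos p).pm (x - pos (a i))) (fun i _ => hw i) hw1
      (fun i _ => (Law.map pos p).pm_nonneg _)
    simpa only [smul_eq_mul] using h3
  calc ent (Law.map pos p) = ∑ i, w i * ent (Law.map pos p) := by
        rw [← Finset.sum_mul, hw1, one_mul]
    _ = ∑ i, w i * ∑ x, Real.negMulLog ((Law.map pos p).pm (x - pos (a i))) := by
        refine Finset.sum_congr rfl fun i _ => ?_
        congr 1
        exact (Equiv.sum_comp (Equiv.subRight (pos (a i)))
          (fun x => Real.negMulLog ((Law.map pos p).pm x))).symm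
    _ = ∑ x, ∑ i, w i * Real.negMulLog ((Law.map pos p).pm (x - pos (a i))) := by
        simp only [Finset.mul_sum]
        exact Finset.sum_comm
    _ ≤ ∑ x, Real.negMulLog ((Law.map pos (p * q)).pm x) := Finset.sum_le_sum fun x _ => h2 x
    _ = ent (Law.map pos (p * q)) := rfl

end MP14ee70.TY
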