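import Mathlib
import Pool.Agent.Lib.MP_14ee70_nt.TY.C.Ent

/-!
# Project TY, file C/Class: the classes `LL(a, r, K)` and the numbers `Mx r`

`Mx r = sup {ent (pos Z) : Z ∈ LL(1, r, 1)}`: bounded by `log Q`, nondecreasing in `r` (`Z * mA ∈ LL(1, r+1, 1)` since `B ≥ 1`, and
`ent_mul_ge`), `Mx 0 ≥ ent (pos gam) ≥ log Q - l`.  `Mx_pigeon`: the increments `Mx ((g+1) b) - Mx (g b)`, `g < r0`, are `≥ 0` and
their sum is `≤ Mx (r0 b) - Mx 0 ≤ l`.
-/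

namespace MP14ee70.TY

open Finset

variable {Q : ℕ} [NeZero Q] {S : Type*} [CommMonoid S]

/-- multiplication of classes -/
theorem LL_mul {gam mA : Law S} {B : ℝ} {a r a' r' : ℕ} {K K' : ℝ} {Z Z' : Law S}
    (h : Z ∈ LL gam mA B a r K) (h' : Z' ∈ LL gam mA B a' r' K') :
    Z * Z' ∈ LL gam mA B (a + a') (r + r') (K * K') := by
  have h1 : Law.Dom (K * B ^ r * (K' * B ^ r')) (Z * Z')
      (gam ^ a * mA ^ r * (gam ^ a' * mA ^ r')) := Law.Dom.mul h h'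
  have h2 : gam ^ a * mA ^ r * (gam ^ a' * mA ^ r') = gam ^ (a + a') * mA ^ (r + r') := by
    rw [mul_mul_mul_comm, pow_add, pow_add]
  rw [h2] at h1
  exact h1.mono (le_of_eq (by rw [pow_add]; ring))

/-- a law dominated by an element of the class times `mA ^ b` -/
theorem LL_dom {gam mA : Law S} {B : ℝ} (hB : 1 ≤ B) {a r b : ℕ} {K K' : ℝ} {Z Z' : Law S}
    (h : Z ∈ LL gam mA B a r K) (h' : Law.Dom (K' * B ^ b) Z' (Z * mA ^ b)) :
    Z' ∈ LL gam mA B a (r + b) (K' * K) := by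
  have h1 : Law.Dom (K * B ^ r * 1) (Z * mA ^ b) (gam ^ a * mA ^ r * mA ^ b) :=
    Law.Dom.mul h (Law.Dom.refl _)
  have h2 := h'.trans h1
  rw [mul_assoc (gam ^ a), ← pow_add] at h2
  exact h2.mono (le_of_eq (by rw [pow_add]; ring))

theorem gam_mem (gam mA : Law S) (B : ℝ) : gam ∈ LL gam mA B 1 0 1 := by
  change Law.Dom (1 * B ^ 0) gam (gam ^ 1 * mA ^ 0)
  rw [pow_zero, pow_zero, pow_one, mul_one, mul_one]
  exact Law.Dom.refl gam

theorem class_mem (gam mA : Law S) {B : ℝ} (hB : 1 ≤ B) (r : ℕ) :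
    gam * mA ^ r ∈ LL gam mA B 1 r 1 := by
  change Law.Dom (1 * B ^ r) (gam * mA ^ r) (gam ^ 1 * mA ^ r)
  rw [pow_one]
  exact (Law.Dom.refl _).mono (by rw [one_mul]; exact one_le_pow₀ hB)

theorem class_bdd (pos : S → ZMod Q) (gam mA : Law S) (B : ℝ) (r : ℕ) :
    BddAbove ((fun Z => ent (Law.map pos Z)) '' LL gam mA B 1 r 1) := by
  refine ⟨Real.log Q, ?_⟩
  rintro _ ⟨Z, -, rfl⟩
  exact ent_le _

theorem Mx_le (pos : S → ZMod Q) (gam mA : Law S) (B : ℝ) (hB : 1 ≤ B) (r : ℕ) :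
    Mx pos gam mA B r ≤ Real.log Q := by
  refine csSup_le ⟨_, _, class_mem gam mA hB r, rfl⟩ ?_
  rintro _ ⟨Z, -, rfl⟩
  exact ent_le _

theorem le_Mx (pos : S → ZMod Q) (gam mA : Law S) (B : ℝ) (r : ℕ) (Z : Law S)
    (hZ : Z ∈ LL gam mA B 1 r 1) : ent (Law.map pos Z) ≤ Mx pos gam mA B r := by
  exact le_csSup (class_bdd pos gam mA B r) ⟨Z, hZ, rfl⟩

/-- `gam * mA ^ r` is in the class (`B ≥ 1`), and the supremum is approximated. -/
theorem exists_near_Mx (pos : S → ZMod Q) (gam mA : Law S) (B : ℝ) (hB : 1 ≤ B) (r : ℕ) :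
    ∃ Z ∈ LL gam mA B 1 r 1, Mx pos gam mA B r - 1 ≤ ent (Law.map pos Z) := by
  have h1 : ((fun Z => ent (Law.map pos Z)) '' LL gam mA B 1 r 1).Nonempty :=
    ⟨_, _, class_mem gam mA hB r, rfl⟩
  obtain ⟨_, ⟨Z, hZ, rfl⟩, h2⟩ := exists_lt_of_lt_csSup h1
    (show Mx pos gam mA B r - 1 < sSup _ from by
      change Mx pos gam mA B r - 1 < Mx pos gam mA B r
      linarith)
  exact ⟨Z, hZ, h2.le⟩

theorem Mx_mono (pos : S → ZMod Q) (hpos : ∀ x y, pos (x * y) = pos x + pos y) (gam mA : Law S)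
    (B : ℝ) (hB : 1 ≤ B) {r r' : ℕ} (h : r ≤ r') : Mx pos gam mA B r ≤ Mx pos gam mA B r' := by
  refine csSup_le ⟨_, _, class_mem gam mA hB r, rfl⟩ ?_
  rintro _ ⟨Z, hZ, rfl⟩
  obtain ⟨b, rfl⟩ := Nat.exists_eq_add_of_le h
  refine (ent_mul_ge pos hpos Z (mA ^ b)).trans ?_
  refine le_Mx pos gam mA B (r + b) _ ?_
  have h1 : Law.Dom (1 * B ^ b) (Z * mA ^ b) (Z * mA ^ b) :=
    (Law.Dom.refl _).mono (by rw [one_mul]; exact one_le_pow₀ hB)
  have h2 := LL_dom hB hZ h1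
  rwa [one_mul] at h2

theorem Mx_pigeon (pos : S → ZMod Q) (hpos : ∀ x y, pos (x * y) = pos x + pos y) (gam mA : Law S)
    (B : ℝ) (hB : 1 ≤ B) (l : ℝ) (hl : ∀ x, (Law.map pos gam).pm x ≤ Real.exp l / Q) (b r0 : ℕ)
    (hr0 : 1 ≤ r0) : ∃ g < r0, Mx pos gam mA B ((g + 1) * b) - Mx pos gam mA B (g * b) ≤ l / r0 := by
  by_contra hcon
  push Not at hcon
  have h0 : (0 : ℝ) < r0 := by exact_mod_cast hr0
  have h1 : ∑ g ∈ Finset.range r0, l / r0 <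
      ∑ g ∈ Finset.range r0, (Mx pos gam mA B ((g + 1) * b) - Mx pos gam mA B (g * b)) :=
    Finset.sum_lt_sum_of_nonempty ⟨0, Finset.mem_range.2 (by omega)⟩
      fun g hg => hcon g (Finset.mem_range.1 hg)
  rw [Finset.sum_range_sub (fun g => Mx pos gam mA B (g * b)) r0, Finset.sum_const,
    Finset.card_range, nsmul_eq_mul, mul_div_cancel₀ _ h0.ne', zero_mul] at h1
  have h2 := Mx_le pos gam mA B hB (r0 * b)
  have h3 := le_Mx pos gam mA B 0 gam (gam_mem gam mA B)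
  have h4 := le_ent_of_pm_le (Law.map pos gam) l hl
  linarith

end MP14ee70.TY
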