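import Mathlib
import Pool.Agent.Lib.MP_14ee70_nt.TY.Defs2

/-!
# Project TY, file C/Cond: conditioning a law of large entropy to a law with bounded density

`f(x) = Q (map pos Z).pm x`.  `∑ pm log f = log Q - ent ≤ s`; `∑ pm (log f)_- = (1/Q) ∑_{f<1} f log (1/f) ≤ 1` (`t log (1/t) ≤ 1`).
So `∑ pm (log f)_+ ≤ s + 1` and by Markov `P(log f(pos Z) > 2R(s+1)) ≤ 1/(2R)`.  Let `Z'` be `Z` conditioned on the
complement (`Law.tilt` by the indicator; probability `p0 ≥ 1 - 1/(2R) ≥ 1/2`).
`(map pos Z').pm x ≤ exp (2R(s+1)) / (Q p0) ≤ exp (2R(s+1) + 1)/Q` (for `x` outside the good set it is `0`).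
-/

namespace MP14ee70.TY

open Finset

variable {Q : ℕ} [NeZero Q]

theorem cond_step {S : Type*} (pos : S → ZMod Q) (Z : Law S) (s : ℝ) (hs : 0 ≤ s)
    (hZ : Real.log Q - s ≤ ent (Law.map pos Z)) (R : ℕ) (hR : 1 ≤ R) :
    ∃ Z' : Law S, Law.Dom (1 / (1 - 1 / (2 * (R : ℝ)))) Z' Z ∧
      ∀ x, (Law.map pos Z').pm x ≤ Real.exp (2 * R * (s + 1) + 1) / Q := by
  classical
  set p := Law.map pos Z with hp
  have hQ : (0 : ℝ) < Q := by exact_mod_cast Nat.pos_of_ne_zero (NeZero.ne Q)
  have hR' : (1 : ℝ) ≤ R := by exact_mod_cast hR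
  have hpm0 : ∀ x, 0 ≤ p.pm x := fun x => Law.pm_nonneg _ _
  set G : ZMod Q → ℝ := fun x => Real.log (Q * p.pm x) with hG
  -- the mean of `G`
  have hterm : ∀ x, p.pm x * G x = p.pm x * Real.log Q - Real.negMulLog (p.pm x) := by
    intro x
    simp only [hG, Real.negMulLog]
    rcases eq_or_lt_of_le (hpm0 x) with h0 | h0
    · rw [← h0]; simp
    · rw [Real.log_mul hQ.ne' h0.ne']
      ring
  have hmean : p.E G ≤ s := by
    rw [Law.E_eq_sum]
    have : ∑ a, p.pm a * G a = Real.log Q - ent p := by
      simp only [hterm]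
      rw [Finset.sum_sub_distrib, ← Finset.sum_mul, Law.sum_pm, one_mul]
      rfl
    rw [this]
    linarith
  -- the negative part
  have hneg : p.E (fun x => max (-(G x)) 0) ≤ 1 := by
    rw [Law.E_eq_sum]
    calc ∑ a, p.pm a * max (-(G a)) 0 ≤ ∑ _a : ZMod Q, 1 / (Q : ℝ) := by
          refine Finset.sum_le_sum fun a _ => ?_
          rcases eq_or_lt_of_le (hpm0 a) with h0 | h0
          · rw [← h0, zero_mul]; positivity
          · have hf : 0 < Q * p.pm a := by positivity
            rcases le_total (-(G a)) 0 with h1 | h1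
            · rw [max_eq_right h1, mul_zero]; positivity
            · rw [max_eq_left h1]
              have h2 : -(G a) ≤ (Q * p.pm a)⁻¹ - 1 := by
                have := Real.log_le_sub_one_of_pos (inv_pos.2 hf)
                rw [Real.log_inv] at this
                exact this
              rw [le_div_iff₀ hQ]
              have h3 : (Q * p.pm a) * (-(G a)) ≤ (Q * p.pm a) * ((Q * p.pm a)⁻¹ - 1) :=
                mul_le_mul_of_nonneg_left h2 hf.le
              rw [mul_sub, mul_inv_cancel₀ hf.ne'] at h3
              nlinarith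
      _ = 1 := by
          rw [Finset.sum_const, nsmul_eq_mul, Finset.card_univ, ZMod.card]
          field_simp
  have hposE : p.E (fun x => max (G x) 0) ≤ s + 1 := by
    have e : (fun x => max (G x) 0) = fun x => G x + max (-(G x)) 0 := by
      funext x
      rcases le_total (G x) 0 with h1 | h1
      · rw [max_eq_right h1, max_eq_left (by linarith)]; ring
      · rw [max_eq_left h1, max_eq_right (by linarith)]; ring
    rw [e, Law.E_add]
    linarith
  set c : ℝ := 2 * R * (s + 1) with hc
  have hcpos : 0 < c := by positivity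
  -- the bad event
  have hbad : Z.P (fun z => c < max (G (pos z)) 0) ≤ 1 / (2 * R) := by
    have h1 := Law.markov p (fun x => max (G x) 0) (fun x => le_max_right _ _) hcpos
    have h2 : p.P (fun x => c < max (G x) 0) = Z.P (fun z => c < max (G (pos z)) 0) :=
      Law.map_P pos Z _
    rw [h2] at h1
    refine h1.trans ?_
    rw [div_le_div_iff₀ hcpos (by positivity)]
    rw [hc]
    nlinarith
  set v : S → ℝ := fun z => if ¬ (c < max (G (pos z)) 0) then 1 else 0 with hv
  have hv0 : ∀ z, 0 ≤ v z := fun z => by simp only [hv]; split_ifs <;> norm_num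
  have hv1 : ∀ z, v z ≤ 1 := fun z => by simp only [hv]; split_ifs <;> norm_num
  have hEv : Z.E v = 1 - Z.P (fun z => c < max (G (pos z)) 0) := by
    rw [← Law.P_compl]
    unfold Law.P
    congr 1
    funext z
    simp only [hv]
    by_cases h : c < max (G (pos z)) 0 <;> simp [h]
  have h12 : 1 / (2 * (R : ℝ)) ≤ 1 / 2 := by
    apply one_div_le_one_div_of_le <;> linarith
  have hEv1 : 1 - 1 / (2 * (R : ℝ)) ≤ Z.E v := by rw [hEv]; linarith
  have hEv2 : 1 / 2 ≤ Z.E v := by linarith
  have hEvpos : 0 < Z.E v := by linarith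
  refine ⟨Law.tilt Z v hv0 hEvpos, (Law.dom_tilt Z v hv0 hEvpos hv1).mono ?_, ?_⟩
  · apply one_div_le_one_div_of_le _ hEv1
    linarith
  · intro x
    have e1 : (Law.map pos (Law.tilt Z v hv0 hEvpos)).pm x
        = Z.E (fun z => v z * (if pos z = x then 1 else 0)) / Z.E v := by
      unfold Law.pm
      rw [Law.map_E, Law.tilt_E]
      congr 2
      funext z
      congr 1
      by_cases h : pos z = x <;> simp [h]
    have e2 : p.pm x = Z.E (fun z => if pos z = x then (1 : ℝ) else 0) := by
      rw [hp]
      unfold Law.pm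
      rw [Law.map_E]
      congr 1
      funext z
      by_cases h : pos z = x <;> simp [h]
    rw [e1]
    by_cases hx : c < max (G x) 0
    · have : (fun z => v z * (if pos z = x then (1 : ℝ) else 0)) = fun _ => 0 := by
        funext z
        by_cases h : pos z = x
        · simp only [hv]
          rw [h]
          simp [hx]
        · simp [h]
      rw [this, Law.E_const, zero_div]
      positivity
    · have h1 : Z.E (fun z => v z * (if pos z = x then 1 else 0)) ≤ p.pm x := by
        rw [e2]
        refine Law.E_mono _ fun z => ?_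
        by_cases h : pos z = x
        · simp only [h, if_true, mul_one]; exact hv1 z
        · simp [h]
      have h2 : p.pm x ≤ Real.exp c / Q := by
        rcases eq_or_lt_of_le (hpm0 x) with h0 | h0
        · rw [← h0]; positivity
        · have h3 : G x ≤ c := (le_max_left _ _).trans (not_lt.1 hx)
          rw [le_div_iff₀ hQ]
          have h4 : Q * p.pm x ≤ Real.exp c := by
            rw [← Real.log_le_iff_le_exp (by positivity)]
            exact h3
          linarith
      rw [div_le_div_iff₀ hEvpos hQ]
      have h5 : Real.exp (c + 1) = Real.exp c * Real.exp 1 := Real.exp_add _ _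
      have h6 : (2 : ℝ) ≤ Real.exp 1 := by
        have := Real.add_one_le_exp (1 : ℝ)
        linarith
      have h7 : p.pm x * Q ≤ Real.exp c := by
        rw [le_div_iff₀ hQ] at h2
        exact h2
      have h8 : Real.exp c ≤ Real.exp (c + 1) * Z.E v := by
        rw [h5]
        have hec := Real.exp_pos c
        have : 1 ≤ Real.exp 1 * Z.E v := by nlinarith
        calc Real.exp c = Real.exp c * 1 := (mul_one _).symm
          _ ≤ Real.exp c * (Real.exp 1 * Z.E v) := mul_le_mul_of_nonneg_left this hec.le
          _ = _ := by ring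
      calc Z.E (fun z => v z * (if pos z = x then 1 else 0)) * Q ≤ p.pm x * Q :=
            mul_le_mul_of_nonneg_right h1 hQ.le
        _ ≤ _ := h7.trans h8

end MP14ee70.TY
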