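import Mathlib
import Pool.Agent.Lib.MP_14ee70_nt.TY.Defs2

/-!
# Project TY, file C/Ruzsa: the entropic Ruzsa triangle inequality

`H(U - V) ≤ H(U + W) + H(V + W) - H(W)` for `(U, V)` with any joint law and `W` independent of the pair.
Proof with point masses on `G = ZMod Q`: let `π0(u, v)` be the joint point masses of `(pos U, pos V)` (a function on `G × G`),
`w(x)` those of `pos W`, `d(x)` those of `pos U - pos V`, `f(x)` of `pos U + pos W`, `g(x)` of `pos V + pos W`:
`f(x) = ∑_u π0_U(u) w(x - u)`, ...  Then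
`-H(U+W) - H(V+W) + H(W) + H(U-V) = ∑_{u,v,x} π0(u,v) w(x) log [ f(u+x) g(v+x) / (w(x) d(u-v)) ]`
(sum over the triples with `π0(u,v) w(x) > 0`, for which `f, g, w, d > 0`)
`≤ log ∑_{u,v,x : π0 w > 0} π0(u,v) f(u+x) g(v+x) / d(u-v)` (Jensen)
`≤ log ∑_{t : d(t) > 0} (∑_{u-v=t} π0(u,v)/d(t)) ∑_z f(z+t) g(z) ≤ log ∑_t ∑_z f(z+t) g(z) = log 1 = 0`
(with `z = v + x`, `u + x = z + t`; the sum over `z` does not depend on `(u,v)`, and `∑_{u-v=t} π0(u,v) = d(t)`).
-/

namespace MP14ee70.TY

open Finset

variable {Q : ℕ} [NeZero Q]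

/-- A law lives where the point mass of its image is positive. -/
theorem supp_pm_pos {α : Type*} (p : Law α) (h : α → ZMod Q) :
    p.Supp (fun z => 0 < (Law.map h p).pm (h z)) := by
  classical
  have h1 : p.Supp (fun z => 0 < (Law.map h p).pm (h z))
      ↔ (Law.map h p).P (fun x => ¬ 0 < (Law.map h p).pm x) = 0 := Iff.rfl
  rw [h1]
  unfold Law.P
  rw [Law.E_eq_sum]
  refine Finset.sum_eq_zero fun x _ => ?_
  by_cases hx : 0 < (Law.map h p).pm x
  · simp [hx]
  · have : (Law.map h p).pm x = 0 := le_antisymm (not_lt.1 hx) (Law.pm_nonneg _ _)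
    rw [this, zero_mul]

/-- The expectation of `log pm` is minus the entropy. -/
theorem E_log_pm {α : Type*} (p : Law α) (h : α → ZMod Q) :
    p.E (fun z => Real.log ((Law.map h p).pm (h z))) = - ent (Law.map h p) := by
  have h1 : p.E (fun z => Real.log ((Law.map h p).pm (h z)))
      = (Law.map h p).E (fun x => Real.log ((Law.map h p).pm x)) := rfl
  rw [h1, Law.E_eq_sum]
  unfold ent
  rw [← Finset.sum_neg_distrib]
  refine Finset.sum_congr rfl fun x _ => ?_
  rw [Real.negMulLog]
  ring

theorem ruzsa {S : Type*} [CommMonoid S] (pos : S → ZMod Q)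
    (hpos : ∀ x y, pos (x * y) = pos x + pos y) (π : Law (S × S)) (ω : Law S) :
    ent (dlaw pos π) ≤ ent (Law.map pos (Law.map Prod.fst π * ω))
      + ent (Law.map pos (Law.map Prod.snd π * ω)) - ent (Law.map pos ω) := by
  classical
  -- the joint law of the triple
  set ρ : Law ((S × S) × S) := Law.bind π (fun z => Law.map (fun s => (z, s)) ω) with hρ
  have hρE : ∀ F : (S × S) × S → ℝ, ρ.E F = π.E (fun z => ω.E (fun s => F (z, s))) := fun F => rfl
  set hf : (S × S) × S → ZMod Q := fun a => pos a.1.1 + pos a.2 with hhf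
  set hg : (S × S) × S → ZMod Q := fun a => pos a.1.2 + pos a.2 with hhg
  set hw : (S × S) × S → ZMod Q := fun a => pos a.2 with hhw
  set hd : (S × S) × S → ZMod Q := fun a => pos a.1.1 - pos a.1.2 with hhd
  have ef : Law.map hf ρ = Law.map pos (Law.map Prod.fst π * ω) := by
    ext F
    simp only [Law.map_E, Law.mul_E, hρE, hhf, hpos]
  have eg : Law.map hg ρ = Law.map pos (Law.map Prod.snd π * ω) := by
    ext F
    simp only [Law.map_E, Law.mul_E, hρE, hhg, hpos]
  have ew : Law.map hw ρ = Law.map pos ω := by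
    ext F
    simp only [Law.map_E, hρE, hhw, Law.E_const]
  have ed : Law.map hd ρ = dlaw pos π := by
    ext F
    simp only [dlaw, Law.map_E, hρE, hhd, Law.E_const]
  rw [← ef, ← eg, ← ew, ← ed]
  set f := (Law.map hf ρ).pm with hfdef
  set g := (Law.map hg ρ).pm with hgdef
  set w := (Law.map hw ρ).pm with hwdef
  set d := (Law.map hd ρ).pm with hddef
  have f0 : ∀ x, 0 ≤ f x := Law.pm_nonneg _
  have g0 : ∀ x, 0 ≤ g x := Law.pm_nonneg _
  have w0 : ∀ x, 0 ≤ w x := Law.pm_nonneg _
  have d0 : ∀ x, 0 ≤ d x := Law.pm_nonneg _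
  have sf : ∑ x, f x = 1 := Law.sum_pm _
  have sg : ∑ x, g x = 1 := Law.sum_pm _
  -- the good set
  set G : (S × S) × S → Prop := fun a => 0 < f (hf a) ∧ 0 < g (hg a) ∧ 0 < w (hw a) ∧ 0 < d (hd a)
    with hG
  have hsupp : ρ.Supp G := by
    have i1 := supp_pm_pos ρ hf
    have i2 := supp_pm_pos ρ hg
    have i3 := supp_pm_pos ρ hw
    have i4 := supp_pm_pos ρ hd
    unfold Law.Supp at i1 i2 i3 i4 ⊢
    have hle : ρ.P (fun x => ¬ G x) ≤ ρ.P (fun a => ¬ 0 < f (hf a)) + (ρ.P (fun a => ¬ 0 < g (hg a))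
        + (ρ.P (fun a => ¬ 0 < w (hw a)) + ρ.P (fun a => ¬ 0 < d (hd a)))) := by
      refine (ρ.P_mono (B := fun a => ¬ 0 < f (hf a) ∨ (¬ 0 < g (hg a) ∨ (¬ 0 < w (hw a) ∨
        ¬ 0 < d (hd a)))) fun a ha => ?_).trans ?_
      · by_contra hcon
        push Not at hcon
        exact ha ⟨hcon.1, hcon.2.1, hcon.2.2.1, hcon.2.2.2⟩
      · refine (ρ.P_or_le _ _).trans (add_le_add_right ?_ _)
        refine (ρ.P_or_le _ _).trans (add_le_add_right ?_ _)
        exact ρ.P_or_le _ _
    have i1' : ρ.P (fun a => ¬ 0 < f (hf a)) = 0 := i1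
    have i2' : ρ.P (fun a => ¬ 0 < g (hg a)) = 0 := i2
    have i3' : ρ.P (fun a => ¬ 0 < w (hw a)) = 0 := i3
    have i4' : ρ.P (fun a => ¬ 0 < d (hd a)) = 0 := i4
    rw [i1', i2', i3', i4'] at hle
    refine le_antisymm (by linarith) (ρ.P_nonneg _)
  set F0 : (S × S) × S → ℝ := fun a => f (hf a) * g (hg a) / (w (hw a) * d (hd a)) with hF0
  set F : (S × S) × S → ℝ := fun a => if G a then F0 a else 1 with hF
  have hFpos : ∀ a, 0 < F a := by
    intro a
    simp only [hF]
    split_ifs with ha
    · obtain ⟨a1, a2, a3, a4⟩ := ha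
      simp only [hF0]
      positivity
    · exact one_pos
  have hjensen := ρ.E_log_le F hFpos
  have hlhs : ρ.E (fun a => Real.log (F a)) = (- ent (Law.map hf ρ)) + (- ent (Law.map hg ρ))
      - ((- ent (Law.map hw ρ)) + (- ent (Law.map hd ρ))) := by
    rw [← E_log_pm ρ hf, ← E_log_pm ρ hg, ← E_log_pm ρ hw, ← E_log_pm ρ hd, ← Law.E_add,
      ← Law.E_add, ← Law.E_sub]
    refine hsupp.E_congr fun a ha => ?_
    have hFa : F a = F0 a := by simp only [hF]; rw [if_pos ha]
    obtain ⟨a1, a2, a3, a4⟩ := ha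
    rw [hFa]
    simp only [hF0]
    rw [Real.log_div (mul_pos a1 a2).ne' (mul_pos a3 a4).ne', Real.log_mul a1.ne' a2.ne',
      Real.log_mul a3.ne' a4.ne']
  -- the expectation of F is at most one
  set c : ZMod Q → ℝ := fun t => ∑ z, f (z + t) * g z with hc
  have hcsum : ∑ t, c t = 1 := by
    simp only [hc]
    rw [Finset.sum_comm]
    have : ∀ z, ∑ t, f (z + t) * g z = g z := by
      intro z
      rw [← Finset.sum_mul]
      have : ∑ t, f (z + t) = 1 := by
        rw [← sf]
        exact Equiv.sum_comp (Equiv.addLeft z) f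
      rw [this, one_mul]
    rw [Finset.sum_congr rfl fun z _ => this z, sg]
  have c0 : ∀ t, 0 ≤ c t := fun t => Finset.sum_nonneg fun z _ => mul_nonneg (f0 _) (g0 _)
  have hE1 : ρ.E F ≤ 1 := by
    have hF' : ρ.E F = ρ.E (fun a => if 0 < w (hw a) ∧ 0 < d (hd a) then F0 a else 0) := by
      refine hsupp.E_congr fun a ha => ?_
      simp only [hF]
      rw [if_pos ha, if_pos ⟨ha.2.2.1, ha.2.2.2⟩]
    rw [hF', hρE]
    -- inner expectation
    have hin : ∀ z : S × S, ω.E (fun s => if 0 < w (hw (z, s)) ∧ 0 < d (hd (z, s)) then F0 (z, s)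
        else 0) ≤ (if 0 < d (pos z.1 - pos z.2) then c (pos z.1 - pos z.2) / d (pos z.1 - pos z.2)
          else 0) := by
      intro z
      by_cases hdz : 0 < d (pos z.1 - pos z.2)
      · rw [if_pos hdz]
        have e1 : ω.E (fun s => if 0 < w (hw (z, s)) ∧ 0 < d (hd (z, s)) then F0 (z, s) else 0)
            = (Law.map pos ω).E (fun x => if 0 < w x then
                f (pos z.1 + x) * g (pos z.2 + x) / (w x * d (pos z.1 - pos z.2)) else 0) := by
          rw [Law.map_E]
          congr 1
          funext s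
          simp only [hhw, hhd, hhf, hhg, hF0, hdz, and_true]
        rw [e1, Law.E_eq_sum]
        have e2 : (Law.map pos ω).pm = w := by rw [hwdef, ew]
        rw [e2]
        calc ∑ x, w x * (if 0 < w x then
                f (pos z.1 + x) * g (pos z.2 + x) / (w x * d (pos z.1 - pos z.2)) else 0)
            ≤ ∑ x, f (pos z.1 + x) * g (pos z.2 + x) / d (pos z.1 - pos z.2) := by
              refine Finset.sum_le_sum fun x _ => ?_
              by_cases hx : 0 < w x
              · rw [if_pos hx]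
                have : w x * (f (pos z.1 + x) * g (pos z.2 + x) / (w x * d (pos z.1 - pos z.2)))
                    = f (pos z.1 + x) * g (pos z.2 + x) / d (pos z.1 - pos z.2) := by
                  field_simp
                rw [this]
              · rw [if_neg hx, mul_zero]
                exact div_nonneg (mul_nonneg (f0 _) (g0 _)) hdz.le
          _ = c (pos z.1 - pos z.2) / d (pos z.1 - pos z.2) := by
              rw [← Finset.sum_div]
              congr 1
              simp only [hc]
              rw [← Equiv.sum_comp (Equiv.addLeft (pos z.2))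
                (fun y => f (y + (pos z.1 - pos z.2)) * g y)]
              refine Finset.sum_congr rfl fun x _ => ?_
              simp only [Equiv.coe_addLeft]
              congr 2
              abel
      · rw [if_neg hdz]
        refine ω.E_le_of_le fun s => ?_
        have : ¬ (0 < w (hw (z, s)) ∧ 0 < d (hd (z, s))) := fun h => hdz h.2
        rw [if_neg this]
    refine (π.E_mono hin).trans ?_
    have e3 : π.E (fun z => if 0 < d (pos z.1 - pos z.2) then
        c (pos z.1 - pos z.2) / d (pos z.1 - pos z.2) else 0)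
        = (dlaw pos π).E (fun t => if 0 < d t then c t / d t else 0) := rfl
    rw [e3, Law.E_eq_sum, ← hcsum]
    have e4 : (dlaw pos π).pm = d := by rw [hddef, ed]
    rw [e4]
    refine Finset.sum_le_sum fun t _ => ?_
    by_cases ht : 0 < d t
    · rw [if_pos ht, mul_div_cancel₀ _ ht.ne']
    · rw [if_neg ht, mul_zero]
      exact c0 t
  have hE0 : 0 ≤ ρ.E F := ρ.E_nonneg fun a => (hFpos a).le
  have hlog : Real.log (ρ.E F) ≤ 0 := Real.log_nonpos hE0 hE1
  rw [hlhs] at hjensen
  linarith

end MP14ee70.TY
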