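import Mathlib
import Pool.Agent.Lib.MP_14ee70_nt.TY.C.Class
import Pool.Agent.Lib.MP_14ee70_nt.TY.C.Ruzsa
import Pool.Agent.Lib.MP_14ee70_nt.TY.C.Cond
import Pool.Agent.Lib.MP_14ee70_nt.TY.B.Cor

/-!
# Project TY, file C/Round: one round

`n = #Low`.  `π = (Z, 1)` = `Law.map (fun z => (z, 1)) Z`: `dlaw pos π = map pos Z`, and `∑ pm^2 ≤ max pm ≤ e^s/Q`.  `corB`: `π'`, `b ≤ (s+1) j`,
`U = map fst π' ≤ B^b Z * mA^b`, so `U ∈ LL(a, r+b, K)`; `V = map snd π' ≤ B^b 1 * mA^b`; `ent (dlaw pos π') ≥ log Q - log (6n)`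
(`le_ent_of_sq`).  `r0 = ⌈4 R l / s⌉`; `Mx_pigeon`: `g < r0` with increment `≤ l/r0 ≤ s/(4R)`.  `W ∈ LL(1, g b, 1)` with
`ent (pos W) ≥ Mx (g b) - 1` (`exists_near_Mx`); `V * W ∈ LL(1, (g+1) b, 1)`, so `ent (pos (V*W)) ≤ Mx ((g+1) b)`.
`ruzsa`: `ent (pos (U*W)) ≥ (log Q - log (6n)) + (Mx (gb) - 1) - Mx ((g+1)b) ≥ log Q - s1`, `s1 = log (6n) + s/(4R) + 1`.
`cond_step` for `U*W ∈ LL(a+1, r+b+gb, K)`: `2R(s1+1) + 1 = s/2 + 2R(log(6n) + 2) + 1`.
`r' = r + b + g b ≤ r + r0 b ≤ r + (4Rl/s + 1)(s+1) j ≤ r + 10 R l j` for `1 ≤ s ≤ l`.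
-/

namespace MP14ee70.TY

open Finset

variable {Q : ℕ} [NeZero Q] {S : Type*} [CommMonoid S]

/-- the numerical part: the number of steps -/
theorem round_steps {l s : ℝ} (hs1 : 1 ≤ s) (hsl : s ≤ l) {R j b r0 g : ℕ} (hR : 1 ≤ R)
    (hb : (b : ℝ) ≤ (s + 1) * j) (hr0 : (r0 : ℝ) ≤ 4 * R * l / s + 1) (hg : g < r0) (r : ℕ) :
    ((r + b + g * b : ℕ) : ℝ) ≤ r + 10 * R * l * j := by
  have hs0 : 0 < s := by linarith
  have hl0 : 0 < l := by linarith
  have hR' : (1 : ℝ) ≤ R := by exact_mod_cast hR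
  have hj0 : (0 : ℝ) ≤ j := Nat.cast_nonneg j
  have h1 : ((g : ℝ) + 1) ≤ r0 := by exact_mod_cast hg
  have hb0 : (0 : ℝ) ≤ b := Nat.cast_nonneg b
  have h2 : ((g : ℝ) + 1) * b ≤ (4 * R * l / s + 1) * ((s + 1) * j) :=
    mul_le_mul (h1.trans hr0) hb hb0 (by positivity)
  have h3 : (4 * R * l / s + 1) * (s + 1) ≤ 10 * R * l := by
    have h4 : (4 * R * l / s + 1) * (s + 1) = 4 * R * l + 4 * R * l / s + s + 1 := by
      field_simp
      ring
    rw [h4]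
    have h5 : 4 * R * l / s ≤ 4 * R * l := by
      refine div_le_self (by positivity) hs1
    have h6 : l ≤ R * l := le_mul_of_one_le_left (by linarith) hR'
    linarith
  have h4 : (4 * R * l / s + 1) * ((s + 1) * j) ≤ 10 * R * l * j := by
    rw [← mul_assoc]
    exact mul_le_mul_of_nonneg_right h3 hj0
  push_cast
  have h5 : (r : ℝ) + b + g * b = r + ((g : ℝ) + 1) * b := by ring
  rw [h5]
  linarith

theorem round (pos : S → ZMod Q) (hpos : ∀ x y, pos (x * y) = pos x + pos y) (gam mA : Law S)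
    (η : ℝ) (hη : 0 < η) (Low : Finset (ZMod Q))
    (hν : ∀ r, r ∉ Low → ‖mA.EC fun a => ch (r * pos a)‖ ^ 2 ≤ 1 - η) (hLow : 1 ≤ Low.card)
    (j : ℕ) (hj : 1 ≤ j) (B : ℝ) (hB : 1 ≤ B) (hjB : 1 / (j : ℝ) ^ 2 + j / B ≤ η / 64)
    (l : ℝ) (hl : ∀ x, (Law.map pos gam).pm x ≤ Real.exp l / Q) (R : ℕ) (hR : 1 ≤ R)
    (a r : ℕ) (K : ℝ) (Z : Law S) (hZ : Z ∈ LL gam mA B a r K) (s : ℝ) (hs1 : 1 ≤ s) (hsl : s ≤ l)
    (hZs : ∀ x, (Law.map pos Z).pm x ≤ Real.exp s / Q) :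
    ∃ (Z' : Law S) (r' : ℕ), Z' ∈ LL gam mA B (a + 1) r' (K * (1 / (1 - 1 / (2 * (R : ℝ))))) ∧
      (r' : ℝ) ≤ r + 10 * R * l * j ∧
      ∀ x, (Law.map pos Z').pm x
        ≤ Real.exp (s / 2 + (2 * R * (Real.log (6 * Low.card) + 2) + 1)) / Q := by
  have hQ0 : (0 : ℝ) < Q := by
    have := Nat.pos_of_ne_zero (NeZero.ne Q)
    exact_mod_cast this
  have hs0 : 0 < s := by linarith
  have hl0 : 0 < l := by linarith
  have hR' : (1 : ℝ) ≤ R := by exact_mod_cast hR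
  have hn : (1 : ℝ) ≤ Low.card := by exact_mod_cast hLow
  have hpos1 : pos 1 = 0 := by
    have := hpos 1 1
    rw [mul_one] at this
    exact left_eq_add.1 this
  -- the pair (Z, 1)
  set π : Law (S × S) := Law.map (fun z => (z, 1)) Z with hπ
  have hdl : dlaw pos π = Law.map pos Z := by
    ext f
    unfold dlaw
    rw [Law.map_E, hπ, Law.map_E, Law.map_E]
    congr 1
    funext z
    rw [hpos1, sub_zero]
  have hsq : ∑ x, (dlaw pos π).pm x ^ 2 ≤ Real.exp s / Q := by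
    rw [hdl]
    have h1 : ∀ x, (Law.map pos Z).pm x ^ 2 ≤ (Real.exp s / Q) * (Law.map pos Z).pm x := by
      intro x
      rw [sq]
      exact mul_le_mul_of_nonneg_right (hZs x) (Law.pm_nonneg _ _)
    refine (Finset.sum_le_sum fun x _ => h1 x).trans (le_of_eq ?_)
    rw [← Finset.mul_sum, Law.sum_pm, mul_one]
  obtain ⟨π', b, hb, hU, hV, hsq'⟩ := corB pos hpos mA η hη Low hν hLow j hj B hB hjB π s hs1 hsq
  have hfst : Law.map Prod.fst π = Z := by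
    ext f
    rw [Law.map_E, hπ, Law.map_E]
  have hsnd : Law.map Prod.snd π = (1 : Law S) := by
    ext f
    rw [Law.map_E, hπ, Law.map_E]
    exact Z.E_const (f 1)
  rw [hfst] at hU
  rw [hsnd, one_mul] at hV
  have hU' : Law.map Prod.fst π' ∈ LL gam mA B a (r + b) K := by
    have := LL_dom hB hZ (K' := 1) (b := b) (Z' := Law.map Prod.fst π') (by rwa [one_mul])
    rwa [one_mul] at this
  -- the entropy of the difference
  have hent : Real.log Q - Real.log (6 * Low.card) ≤ ent (dlaw pos π') :=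
    le_ent_of_sq _ _ (by positivity) hsq'
  -- pigeonhole
  set r0 : ℕ := ⌈4 * R * l / s⌉₊ with hr0
  have hpos4 : 0 < 4 * R * l / s := by positivity
  have hr01 : 1 ≤ r0 := Nat.one_le_iff_ne_zero.2 (Nat.ceil_pos.2 hpos4).ne'
  have hr0le : (r0 : ℝ) ≤ 4 * R * l / s + 1 := (Nat.ceil_lt_add_one hpos4.le).le
  obtain ⟨g, hg, hgl⟩ := Mx_pigeon pos hpos gam mA B hB l hl b r0 hr01
  have hinc : l / r0 ≤ s / (4 * R) := by
    have h1 : 4 * R * l / s ≤ r0 := Nat.le_ceil _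
    have h2 : (0 : ℝ) < r0 := by linarith
    rw [div_le_iff₀ h2]
    have h3 : s / (4 * R) * (4 * R * l / s) = l := by
      field_simp
    have h4 : s / (4 * R) * (4 * R * l / s) ≤ s / (4 * R) * r0 :=
      mul_le_mul_of_nonneg_left h1 (by positivity)
    linarith
  obtain ⟨W, hW, hWe⟩ := exists_near_Mx pos gam mA B hB (g * b)
  have hVW : Law.map Prod.snd π' * W ∈ LL gam mA B 1 ((g + 1) * b) 1 := by
    have hW' : Law.Dom (1 * B ^ (g * b)) W (gam ^ 1 * mA ^ (g * b)) := hW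
    have h1 := hV.mul hW'
    show Law.Dom (1 * B ^ ((g + 1) * b)) _ (gam ^ 1 * mA ^ ((g + 1) * b))
    have h2 : B ^ b * (1 * B ^ (g * b)) = 1 * B ^ ((g + 1) * b) := by
      rw [one_mul, one_mul, ← pow_add]
      congr 1
      ring
    have h3 : mA ^ b * (gam ^ 1 * mA ^ (g * b)) = gam ^ 1 * mA ^ ((g + 1) * b) := by
      rw [mul_left_comm, ← pow_add]
      congr 2
      ring
    rwa [h2, h3] at h1
  have hVWe := le_Mx pos gam mA B ((g + 1) * b) _ hVW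
  have hru := ruzsa pos hpos π' W
  have hUWe : Real.log Q - (Real.log (6 * Low.card) + s / (4 * R) + 1) ≤
      ent (Law.map pos (Law.map Prod.fst π' * W)) := by linarith
  have hUW : Law.map Prod.fst π' * W ∈ LL gam mA B (a + 1) (r + b + g * b) (K * 1) :=
    LL_mul hU' hW
  rw [mul_one] at hUW
  have hlog : 0 ≤ Real.log (6 * Low.card) := Real.log_nonneg (by linarith)
  have hs10 : 0 ≤ Real.log (6 * Low.card) + s / (4 * R) + 1 := by positivity
  obtain ⟨Z', hZ', hZ'm⟩ := cond_step pos (Law.map Prod.fst π' * W) _ hs10 hUWe R hR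
  refine ⟨Z', r + b + g * b, ?_, round_steps hs1 hsl hR hb hr0le hg r, fun x => ?_⟩
  · show Law.Dom _ _ _
    have hUW' : Law.Dom (K * B ^ (r + b + g * b)) (Law.map Prod.fst π' * W)
      (gam ^ (a + 1) * mA ^ (r + b + g * b)) := hUW
    refine (hZ'.trans hUW').mono (le_of_eq ?_)
    ring
  · refine (hZ'm x).trans (le_of_eq ?_)
    congr 2
    field_simp
    ring

end MP14ee70.TY
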