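import Mathlib
import Pool.Agent.Lib.MP_14ee70_nt.TY.C.Round

/-!
# Project TY, file C/Iter: `R` rounds

`cR = 2R (log (6n) + 2) + 1 ≥ 1`.  Start: `Z = gam ∈ LL(1, 0, 1)`, `s = l`.  `s ↦ s/2 + cR`: stays `≥ 1` (`cR ≥ 1`) and `≤ l`
(`2 cR ≤ l`); after `i` rounds `s_i ≤ 2^(-i) l + 2 cR`; after `R` rounds `s_R ≤ 1 + 2 cR` (as `l ≤ 2^R`).
`K_i = (1/(1 - 1/(2R)))^i ≤ 2` for `i ≤ R` (Bernoulli: `(1 - 1/(2R))^R ≥ 1/2`).  `r_R ≤ 10 R^2 l j`.
(Apply `round` with `s_i = 2^(-i) l + 2 cR (1 - 2^(-i))`, exactly: `s_(i+1) = s_i/2 + cR`, `1 ≤ s_i ≤ l`.)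
-/

namespace MP14ee70.TY

open Finset

variable {Q : ℕ} [NeZero Q] {S : Type*} [CommMonoid S]

namespace Iteraux

theorem pow_half (R : ℕ) (hR : 1 ≤ R) : 1 / 2 ≤ (1 - 1 / (2 * (R : ℝ))) ^ R := by
  have hR' : (1 : ℝ) ≤ R := by exact_mod_cast hR
  have h1 : 1 / (2 * (R : ℝ)) ≤ 1 / 2 := by
    apply one_div_le_one_div_of_le <;> linarith
  have h2 := one_add_mul_le_pow (show (-2 : ℝ) ≤ -(1 / (2 * (R : ℝ))) by linarith) R
  have h3 : (R : ℝ) * (-(1 / (2 * (R : ℝ)))) = -(1 / 2) := by field_simp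
  rw [h3] at h2
  have h4 : (1 : ℝ) + -(1 / (2 * (R : ℝ))) = 1 - 1 / (2 * (R : ℝ)) := by ring
  rw [h4] at h2
  linarith

end Iteraux

theorem iter (pos : S → ZMod Q) (hpos : ∀ x y, pos (x * y) = pos x + pos y) (gam mA : Law S)
    (η : ℝ) (hη : 0 < η) (Low : Finset (ZMod Q))
    (hν : ∀ r, r ∉ Low → ‖mA.EC fun a => ch (r * pos a)‖ ^ 2 ≤ 1 - η) (hLow : 1 ≤ Low.card)
    (j : ℕ) (hj : 1 ≤ j) (B : ℝ) (hB : 1 ≤ B) (hjB : 1 / (j : ℝ) ^ 2 + j / B ≤ η / 64)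
    (l : ℝ) (hl : ∀ x, (Law.map pos gam).pm x ≤ Real.exp l / Q) (R : ℕ) (hR : 1 ≤ R)
    (hlR : l ≤ 2 ^ R) (hcR : 2 * (2 * R * (Real.log (6 * Low.card) + 2) + 1) ≤ l) :
    ∃ (Z : Law S) (r : ℕ), (r : ℝ) ≤ 10 * R ^ 2 * l * j ∧
      Law.Dom (2 * B ^ r) Z (gam ^ (R + 1) * mA ^ r) ∧
      ∀ x, (Law.map pos Z).pm x
        ≤ Real.exp (1 + 2 * (2 * R * (Real.log (6 * Low.card) + 2) + 1)) / Q := by
  set cR : ℝ := 2 * R * (Real.log (6 * Low.card) + 2) + 1 with hcRdef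
  have hR' : (1 : ℝ) ≤ R := by exact_mod_cast hR
  have hn : (1 : ℝ) ≤ Low.card := by exact_mod_cast hLow
  have hlog : 0 ≤ Real.log (6 * Low.card) := Real.log_nonneg (by linarith)
  have hcR1 : 1 ≤ cR := by
    rw [hcRdef]
    have : 0 ≤ 2 * (R : ℝ) * (Real.log (6 * Low.card) + 2) := by positivity
    linarith
  set q : ℝ := 1 / (1 - 1 / (2 * (R : ℝ))) with hq
  have key : ∀ i : ℕ, ∃ (Z : Law S) (r : ℕ), Z ∈ LL gam mA B (i + 1) r (q ^ i) ∧
      (r : ℝ) ≤ i * (10 * R * l * j) ∧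
      ∀ x, (Law.map pos Z).pm x ≤ Real.exp (l / 2 ^ i + 2 * cR * (1 - 1 / 2 ^ i)) / Q := by
    intro i
    induction i with
    | zero =>
      refine ⟨gam, 0, ?_, by simp, ?_⟩
      · change Law.Dom _ _ _
        simp only [zero_add, pow_zero, mul_one, pow_one]
        exact Law.Dom.refl _
      · intro x
        simpa using hl x
    | succ i ih =>
      obtain ⟨Z, r, hZ, hr, hZs⟩ := ih
      have h2i : (0 : ℝ) < 1 / 2 ^ i := by positivity
      have h2i1 : (1 : ℝ) / 2 ^ i ≤ 1 := by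
        rw [div_le_one (by positivity)]
        exact one_le_pow₀ (by norm_num)
      set s : ℝ := l / 2 ^ i + 2 * cR * (1 - 1 / 2 ^ i) with hs
      have e : s = l * (1 / 2 ^ i) + 2 * cR * (1 - 1 / 2 ^ i) := by rw [hs]; ring
      have hs1 : 1 ≤ s := by
        rw [e]
        have h3 : 2 * cR * (1 / 2 ^ i) ≤ l * (1 / 2 ^ i) := mul_le_mul_of_nonneg_right hcR h2i.le
        nlinarith
      have hsl : s ≤ l := by
        rw [e]
        have h3 : 2 * cR * (1 - 1 / 2 ^ i) ≤ l * (1 - 1 / 2 ^ i) :=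
          mul_le_mul_of_nonneg_right hcR (by linarith)
        nlinarith
      obtain ⟨Z', r', hZ', hr', hZs'⟩ := round pos hpos gam mA η hη Low hν hLow j hj B hB hjB l hl R
        hR (i + 1) r (q ^ i) Z hZ s hs1 hsl hZs
      refine ⟨Z', r', ?_, ?_, ?_⟩
      · rw [pow_succ]
        exact hZ'
      · push_cast
        linarith
      · intro x
        refine (hZs' x).trans_eq ?_
        congr 2
        rw [← hcRdef, hs, pow_succ]
        field_simp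
        ring
  obtain ⟨Z, r, hZ, hr, hZs⟩ := key R
  refine ⟨Z, r, ?_, ?_, ?_⟩
  · calc (r : ℝ) ≤ R * (10 * R * l * j) := hr
      _ = _ := by ring
  · have hZ' : Law.Dom (q ^ R * B ^ r) Z (gam ^ (R + 1) * mA ^ r) := hZ
    refine hZ'.mono (mul_le_mul_of_nonneg_right ?_ (by positivity))
    have h1 := Iteraux.pow_half R hR
    rw [hq, one_div_pow, div_le_iff₀ (by linarith)]
    linarith
  · intro x
    refine (hZs x).trans ?_
    refine div_le_div_of_nonneg_right (Real.exp_le_exp.2 ?_) (by positivity)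
    have h1 : l / 2 ^ R ≤ 1 := by
      rw [div_le_one (by positivity)]
      exact hlR
    have h2 : (0 : ℝ) < 1 / 2 ^ R := by positivity
    nlinarith

end MP14ee70.TY
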