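import Mathlib
import Pool.Agent.Lib.MP_14ee70_nt.TY.Defs3
import Pool.Agent.Lib.MP_14ee70_nt.TY.Four

/-!
# Project TY, file C/Transfer: from the law on `SSm Q` to the forward law

`Lam = Law.map Prod.snd Z`.  Domination: `map snd (gamS^a * mAS^r) = (map snd gamS)^a * (map snd mAS)^r = 1 * stp^r`
(`Law.map_mul`, `Law.map_pow`).  `Z` is supported on the `z` with `toAdd z.1 = ∑_{i<a} u_i`, `u_i ∈ C2` (`Law.Supp.dom`,
`Law.supp_mul`, induction on `a`).  With `p = (map xG Lam).pm` and `u_C = 1_C/#C`: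
`cnv p u_C (x) = P(x - xG ∈ C)/#C`; if `c = x - xG z ∈ C` then `posS = x + (∑ u_i - c) ∈ x + Cp`, so the probability is
`≤ #Cp e^s/Q ≤ 2 #C e^s/Q`, `cnv p u_C ≤ 2 e^s/Q` pointwise, `∑ cnv = 1`, `∑_t |ft p t|^2 |ft u_C t|^2 = Q ∑ (cnv)^2 ≤ 2 e^s`
(`ft_cnv`, `parseval`), and `|ft u_C t| ≥ 1/2` on `BAD`.
-/

namespace MP14ee70.TY

open Finset

variable {Q : ℕ} [NeZero Q]

namespace Transaux

theorem map_snd_gamS (C2 : Finset (ZMod Q)) (hC2 : C2.Nonempty) :
    Law.map (fun z : SSm Q => (z.2 : GN Q)) (gamS C2 hC2) = 1 := by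
  ext f
  simp only [gamS, Law.map_E, Law.one_E]
  exact Law.E_const _ _

theorem map_snd_mAS (A : Finset (ℕ × ℕ)) (hA : A.Nonempty) (v : ℕ × ℕ → ZMod Q) :
    Law.map (fun z : SSm Q => (z.2 : GN Q)) (mAS A hA v) = stp A hA v := by
  ext f
  simp only [mAS, stp, Law.map_E]

theorem map_snd_mul (A : Finset (ℕ × ℕ)) (hA : A.Nonempty) (v : ℕ × ℕ → ZMod Q)
    (C2 : Finset (ZMod Q)) (hC2 : C2.Nonempty) (a r : ℕ) :
    Law.map (fun z : SSm Q => (z.2 : GN Q)) (gamS C2 hC2 ^ a * mAS A hA v ^ r)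
      = stp A hA v ^ r := by
  have h1 : (fun z : SSm Q => (z.2 : GN Q)) 1 = 1 := rfl
  have hm : ∀ x y : SSm Q, (fun z : SSm Q => (z.2 : GN Q)) (x * y)
      = (fun z : SSm Q => (z.2 : GN Q)) x * (fun z : SSm Q => (z.2 : GN Q)) y := fun _ _ => rfl
  rw [Law.map_mul _ hm, Law.map_pow _ h1 hm, Law.map_pow _ h1 hm, map_snd_gamS, map_snd_mAS,
    one_pow, one_mul]

/-- the correction is a sum of `a` elements of `C2` -/
def Cor (C2 : Finset (ZMod Q)) (a : ℕ) (z : SSm Q) : Prop :=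
  ∃ u : Fin a → ZMod Q, (∀ i, u i ∈ C2) ∧ Multiplicative.toAdd z.1 = ∑ i, u i

theorem supp_unif {α : Type*} (s : Finset α) (hs : s.Nonempty) :
    (Law.unif s hs).Supp (· ∈ s) := Law.supp_wt _ _ _ _

theorem supp_map {α β : Type*} {p : Law α} {A : α → Prop} {B : β → Prop} (g : α → β)
    (h : p.Supp A) (hAB : ∀ x, A x → B (g x)) : (Law.map g p).Supp B := by
  have h1 : p.Supp (fun x => B (g x)) := h.mono hAB
  exact h1

theorem supp_one {S : Type*} [CommMonoid S] (A : S → Prop) (h : A 1) : (1 : Law S).Supp A := by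
  unfold Law.Supp Law.P
  rw [Law.one_E]
  simp [h]

theorem supp_gam (C2 : Finset (ZMod Q)) (hC2 : C2.Nonempty) (a : ℕ) :
    (gamS C2 hC2 ^ a).Supp (Cor C2 a) := by
  induction a with
  | zero =>
    rw [pow_zero]
    exact supp_one _ ⟨fun _ => 0, fun i => i.elim0, by simp⟩
  | succ a ih =>
    rw [pow_succ]
    refine Law.supp_mul (B := fun z => Multiplicative.toAdd z.1 ∈ C2) ih ?_ ?_
    · exact supp_map _ (supp_unif C2 hC2) fun x hx => hx
    · rintro x y ⟨u, hu, hx⟩ hy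
      refine ⟨Fin.snoc u (Multiplicative.toAdd y.1), fun i => ?_, ?_⟩
      · refine Fin.lastCases ?_ (fun j => ?_) i
        · rw [Fin.snoc_last]; exact hy
        · rw [Fin.snoc_castSucc]; exact hu j
      · rw [Fin.sum_univ_castSucc]
        simp only [Fin.snoc_castSucc, Fin.snoc_last]
        rw [← hx]
        rfl

theorem supp_mA (A : Finset (ℕ × ℕ)) (hA : A.Nonempty) (v : ℕ × ℕ → ZMod Q) (r : ℕ) :
    (mAS A hA v ^ r).Supp (fun z => z.1 = 1) := by
  induction r with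
  | zero =>
    rw [pow_zero]
    exact supp_one _ rfl
  | succ r ih =>
    rw [pow_succ]
    refine Law.supp_mul (B := fun z : SSm Q => z.1 = 1) ih ?_ ?_
    · exact supp_map _ (supp_unif A hA) fun x _ => rfl
    · intro x y hx hy
      change x.1 * y.1 = 1
      rw [hx, hy, one_mul]

theorem supp_all (A : Finset (ℕ × ℕ)) (hA : A.Nonempty) (v : ℕ × ℕ → ZMod Q)
    (C2 : Finset (ZMod Q)) (hC2 : C2.Nonempty) (a r : ℕ) :
    (gamS C2 hC2 ^ a * mAS A hA v ^ r).Supp (Cor C2 a) := by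
  refine Law.supp_mul (supp_gam C2 hC2 a) (supp_mA A hA v r) ?_
  rintro x y ⟨u, hu, hx⟩ hy
  refine ⟨u, hu, ?_⟩
  change Multiplicative.toAdd (x.1 * y.1) = _
  rw [hy, mul_one]
  exact hx

end Transaux

open Transaux

theorem transfer (A : Finset (ℕ × ℕ)) (hA : A.Nonempty) (v : ℕ × ℕ → ZMod Q)
    (C Cp C2 BAD : Finset (ZMod Q)) (hC : C.Nonempty) (hC2 : C2.Nonempty) (a r : ℕ)
    (hsum : ∀ c ∈ C, ∀ u : Fin a → ZMod Q, (∀ i, u i ∈ C2) → (∑ i, u i) - c ∈ Cp)
    (hcard : (Cp.card : ℝ) ≤ 2 * C.card)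
    (hch : ∀ t ∈ BAD, 1 / 2 ≤ ‖(∑ x ∈ C, ch (t * x)) / C.card‖) (K s : ℝ) (Z : Law (SSm Q))
    (hZ : Law.Dom K Z (gamS C2 hC2 ^ a * mAS A hA v ^ r))
    (hZs : ∀ x, (Law.map posS Z).pm x ≤ Real.exp s / Q) :
    ∃ Lam : Law (GN Q), Law.Dom K Lam (stp A hA v ^ r) ∧
      ∑ t ∈ BAD, ‖chf Lam t‖ ^ 2 ≤ 8 * Real.exp s := by
  classical
  have hQ : (0 : ℝ) < Q := by exact_mod_cast Nat.pos_of_ne_zero (NeZero.ne Q)
  have hCc : (0 : ℝ) < C.card := by exact_mod_cast hC.card_pos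
  set Lam : Law (GN Q) := Law.map (fun z : SSm Q => (z.2 : GN Q)) Z with hLam
  have hdom : Law.Dom K Lam (stp A hA v ^ r) := by
    have := hZ.map (fun z : SSm Q => (z.2 : GN Q))
    rwa [map_snd_mul] at this
  refine ⟨Lam, hdom, ?_⟩
  have hsupp : Z.Supp (Cor C2 a) := (supp_all A hA v C2 hC2 a r).dom hZ
  set p : Law (ZMod Q) := Law.map xG Lam with hp
  set uC : ZMod Q → ℝ := fun x => if x ∈ C then 1 / (C.card : ℝ) else 0 with huC
  have huC0 : ∀ x, 0 ≤ uC x := fun x => by simp only [huC]; split_ifs <;> positivity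
  have hsumuC : ∑ x, uC x = 1 := by
    simp only [huC]
    rw [← Finset.sum_filter, Finset.filter_mem_eq_inter, Finset.univ_inter, Finset.sum_const,
      nsmul_eq_mul]
    field_simp
  -- pointwise bound
  have hpt : ∀ x, cnv p.pm uC x ≤ 2 * Real.exp s / Q := by
    intro x
    have e1 : cnv p.pm uC x = Z.E (fun w => uC (x - Multiplicative.toAdd w.2.1)) := by
      unfold cnv
      rw [← Law.E_eq_sum p (fun z => uC (x - z))]
      rfl
    rw [e1]
    have h1 : Z.E (fun w => uC (x - Multiplicative.toAdd w.2.1))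
        ≤ Z.E (fun w => ∑ q ∈ Cp, (if posS w = x + q then 1 else 0) * (1 / (C.card : ℝ))) := by
      refine hsupp.E_mono ?_
      rintro w ⟨u, hu, hw⟩
      simp only [huC]
      split_ifs with hc
      · have h2 := hsum _ hc u hu
        have h3 : posS w = x + ((∑ i, u i) - (x - Multiplicative.toAdd w.2.1)) := by
          unfold posS
          rw [hw]
          ring
        have h4 : ∀ q ∈ Cp, (0 : ℝ) ≤ (if posS w = x + q then 1 else 0) * (1 / (C.card : ℝ)) := by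
          intro q _
          split_ifs <;> positivity
        refine le_trans ?_ (Finset.single_le_sum h4 h2)
        rw [if_pos h3, one_mul]
      · refine Finset.sum_nonneg fun q _ => ?_
        split_ifs <;> positivity
    refine h1.trans ?_
    rw [Law.E_sum]
    have h2 : ∀ q ∈ Cp, Z.E (fun w => (if posS w = x + q then (1 : ℝ) else 0) * (1 / (C.card : ℝ)))
        ≤ Real.exp s / Q * (1 / (C.card : ℝ)) := by
      intro q _
      rw [Law.E_mul_const]
      refine mul_le_mul_of_nonneg_right ?_ (by positivity)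
      refine le_trans (le_of_eq ?_) (hZs (x + q))
      unfold Law.pm
      rw [Law.map_E]
      congr 1
      funext w
      by_cases h : posS w = x + q <;> simp [h]
    refine (Finset.sum_le_sum h2).trans ?_
    rw [Finset.sum_const, nsmul_eq_mul]
    have h3 : (Cp.card : ℝ) * (Real.exp s / Q * (1 / (C.card : ℝ)))
        ≤ 2 * C.card * (Real.exp s / Q * (1 / (C.card : ℝ))) :=
      mul_le_mul_of_nonneg_right hcard (by positivity)
    refine h3.trans (le_of_eq ?_)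
    field_simp
  have hcnv0 : ∀ x, 0 ≤ cnv p.pm uC x := fun x => by
    unfold cnv
    exact Finset.sum_nonneg fun z _ => mul_nonneg (Law.pm_nonneg _ _) (huC0 _)
  have hcnvsum : ∑ x, cnv p.pm uC x = 1 := by
    unfold cnv
    rw [Finset.sum_comm]
    have h1 : ∀ z : ZMod Q, ∑ x, p.pm z * uC (x - z) = p.pm z := by
      intro z
      rw [← Finset.mul_sum]
      have : ∑ x, uC (x - z) = ∑ x, uC x :=
        Fintype.sum_equiv (Equiv.subRight z) _ _ fun x => rfl
      rw [this, hsumuC, mul_one]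
    rw [Finset.sum_congr rfl fun z _ => h1 z]
    exact Law.sum_pm p
  have hsq : ∑ x, cnv p.pm uC x ^ 2 ≤ 2 * Real.exp s / Q := by
    calc ∑ x, cnv p.pm uC x ^ 2 ≤ ∑ x, 2 * Real.exp s / Q * cnv p.pm uC x := by
          refine Finset.sum_le_sum fun x _ => ?_
          rw [pow_two]
          exact mul_le_mul_of_nonneg_right (hpt x) (hcnv0 x)
      _ = 2 * Real.exp s / Q := by rw [← Finset.mul_sum, hcnvsum, mul_one]
  have hpars : ∑ t, ‖ft (cnv p.pm uC) t‖ ^ 2 ≤ 2 * Real.exp s := by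
    rw [parseval]
    have := mul_le_mul_of_nonneg_left hsq hQ.le
    refine this.trans (le_of_eq ?_)
    field_simp
  have hterm : ∀ t ∈ BAD, ‖chf Lam t‖ ^ 2 ≤ 4 * ‖ft (cnv p.pm uC) t‖ ^ 2 := by
    intro t ht
    have e1 : chf Lam t = ft p.pm t := by
      rw [ft_pm, hp, Law.map_EC]
      rfl
    have e2 : ft uC t = (∑ x ∈ C, ch (t * x)) / C.card := by
      unfold ft
      simp only [huC]
      rw [Finset.sum_div]
      have h1 : ∀ x : ZMod Q, (((if x ∈ C then 1 / (C.card : ℝ) else 0 : ℝ)) : ℂ) * ch (t * x)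
          = if x ∈ C then ch (t * x) / C.card else 0 := by
        intro x
        split_ifs
        · push_cast
          ring
        · push_cast
          ring
      rw [Finset.sum_congr rfl fun x _ => h1 x, ← Finset.sum_filter, Finset.filter_mem_eq_inter,
        Finset.univ_inter]
    rw [ft_cnv, norm_mul, e1, mul_pow]
    have h2 := hch t ht
    rw [← e2] at h2
    have h3 : (1 : ℝ) / 4 ≤ ‖ft uC t‖ ^ 2 := by nlinarith
    have h4 : 0 ≤ ‖ft p.pm t‖ ^ 2 := by positivity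
    nlinarith
  calc ∑ t ∈ BAD, ‖chf Lam t‖ ^ 2 ≤ ∑ t ∈ BAD, 4 * ‖ft (cnv p.pm uC) t‖ ^ 2 :=
        Finset.sum_le_sum hterm
    _ ≤ ∑ t, 4 * ‖ft (cnv p.pm uC) t‖ ^ 2 :=
        Finset.sum_le_sum_of_subset_of_nonneg (Finset.subset_univ _) fun _ _ _ => by positivity
    _ = 4 * ∑ t, ‖ft (cnv p.pm uC) t‖ ^ 2 := by rw [Finset.mul_sum]
    _ ≤ 4 * (2 * Real.exp s) := mul_le_mul_of_nonneg_left hpars (by norm_num)
    _ = 8 * Real.exp s := by ring

end MP14ee70.TY
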