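import Mathlib
import Pool.Agent.Lib.MP_14ee70_nt.TY.E.BadBohr
import Pool.Agent.Lib.MP_14ee70_nt.TY.C.Iter
import Pool.Agent.Lib.MP_14ee70_nt.TY.C.Transfer

/-!
# Project TY, file C/LamEx: existence of the forward law `Lam`

`S = SSm Q`, `pos = posS`, `mA = mAS A v`, `gam = gamS C2`.  `mA.EC (ch (r pos)) = nu r`, `|nu r|^2 ≤ (1-η)^2 ≤ 1 - η` outside `LowS`
(`nu_high`), `1 ≤ #LowS ≤ L` (`card_LowS`).  `j = ⌈12/sqrt η⌉`, `B = 150 j/η`: `1/j^2 + j/B ≤ η/144 + η/150 ≤ η/64`, `B ≤ L^2`.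
`R = ⌈2 log L⌉`, `a = R + 1`, `l = C1 (log L)^4/sqrt η` with `C1 ≥` the constant of `bad_bohr`: `2^R ≥ L^(1.38) ≥ l`,
`2 cR ≤ C (log L)^2 ≤ l`, `(map posS gam).pm x ≤ 1/#C2 ≤ e^l/Q`.  `iter`: `r ≤ 10 R^2 l j ≤ C (log L)^6/η ≤ k/4`
(`k η ≥ C (log L)^7`), `s = 1 + 2 cR ≤ C (log L)^2`.  Then `transfer`.
-/

namespace MP14ee70.TY

open Finset

/-- `A x^n ≤ e^x` for `x` large -/
theorem lamex_pow_le_exp (A : ℝ) (n : ℕ) : ∃ C0 : ℝ, ∀ x : ℝ, C0 ≤ x → A * x ^ n ≤ Real.exp x := by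
  have h := ((Real.tendsto_exp_div_pow_atTop n).eventually_ge_atTop A).and
    (Filter.eventually_gt_atTop 0)
  obtain ⟨C0, hC0⟩ := Filter.eventually_atTop.1 h
  refine ⟨C0, fun x hx => ?_⟩
  obtain ⟨h1, h2⟩ := hC0 x hx
  rwa [le_div_iff₀ (pow_pos h2 n)] at h1

/-- The choice of the parameters. -/
theorem lamex_params (C1 : ℝ) (hC1 : 98 ≤ C1) : ∃ C : ℝ, ∀ (N k : ℕ) (L y η : ℝ),
    RegF C N k L y η → ∀ n : ℝ, 1 ≤ n → n ≤ L →
    1 ≤ ⌈2 * Real.log L⌉₊ ∧ ((⌈2 * Real.log L⌉₊ + 1 : ℕ) : ℝ) ≤ L ∧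
    1 ≤ ⌈12 / Real.sqrt η⌉₊ ∧ 1 ≤ 150 * (⌈12 / Real.sqrt η⌉₊ : ℝ) / η ∧
    150 * (⌈12 / Real.sqrt η⌉₊ : ℝ) / η ≤ L ^ 2 ∧
    1 / (⌈12 / Real.sqrt η⌉₊ : ℝ) ^ 2 + (⌈12 / Real.sqrt η⌉₊ : ℝ) /
      (150 * (⌈12 / Real.sqrt η⌉₊ : ℝ) / η) ≤ η / 64 ∧
    C1 * Real.log L ^ 4 / Real.sqrt η ≤ 2 ^ ⌈2 * Real.log L⌉₊ ∧
    2 * (2 * (⌈2 * Real.log L⌉₊ : ℝ) * (Real.log (6 * n) + 2) + 1) ≤
      C1 * Real.log L ^ 4 / Real.sqrt η ∧
    4 * (10 * (⌈2 * Real.log L⌉₊ : ℝ) ^ 2 * (C1 * Real.log L ^ 4 / Real.sqrt η) *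
      (⌈12 / Real.sqrt η⌉₊ : ℝ)) ≤ k ∧
    8 * Real.exp (1 + 2 * (2 * (⌈2 * Real.log L⌉₊ : ℝ) * (Real.log (6 * n) + 2) + 1)) ≤
      Real.exp (106 * Real.log L ^ 2) := by
  obtain ⟨Ce, hCe⟩ := lamex_pow_le_exp (C1 ^ 2) 8
  obtain ⟨Cη, hCη⟩ := η_small 1
  refine ⟨max (max Ce Cη) (max 1950 (4680 * C1)), fun N k L y η h n hn1 hnL => ?_⟩
  have hCe' : Ce ≤ Real.log L := ((le_max_left _ _).trans (le_max_left _ _)).trans h.logL
  have hη1 : η ≤ 1 := by
    have := hCη N k L y η (h.mono ((le_max_right _ _).trans (le_max_left _ _)))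
    linarith
  have hL1950 : 1950 ≤ L := ((le_max_left _ _).trans (le_max_right _ _)).trans h.Lbig
  have hlog1950 : 1950 ≤ Real.log L := ((le_max_left _ _).trans (le_max_right _ _)).trans h.logL
  have hkη := h.kη
  have hη := h.η_pos
  have hL0 : 0 < L := by linarith
  set lam := Real.log L with hlam
  have hlam1 : 1 ≤ lam := by linarith
  have hLexp : L = Real.exp lam := (Real.exp_log hL0).symm
  set s := Real.sqrt η with hs
  have hs0 : 0 < s := Real.sqrt_pos.2 hη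
  have hsq : s ^ 2 = η := Real.sq_sqrt hη.le
  have hs1 : s ≤ 1 := by
    rw [hs]
    exact (Real.sqrt_le_sqrt hη1).trans_eq Real.sqrt_one
  obtain ⟨u, hu⟩ : ∃ u, u = 1 / s := ⟨_, rfl⟩
  have hu1 : 1 ≤ u := by
    rw [hu, le_div_iff₀ hs0]
    linarith
  have hu0 : 0 < u := by linarith
  have hus : u * s = 1 := by
    rw [hu]
    field_simp
  have hu2 : u ^ 2 * η = 1 := by
    rw [← hsq, ← mul_pow, hus, one_pow]
  have hu4 : u ^ 4 ≤ L := by
    have h1 : 1 ≤ η ^ 2 * L := by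
      have h2 : (L ^ (-(1 / 2) : ℝ)) ^ 2 ≤ η ^ 2 :=
        pow_le_pow_left₀ (Real.rpow_nonneg hL0.le _) h.η_lo 2
      have h3 : (L ^ (-(1 / 2) : ℝ)) ^ 2 * L = 1 := by
        rw [← Real.rpow_natCast, ← Real.rpow_mul hL0.le]
        norm_num
        rw [Real.rpow_neg_one]
        field_simp
      have h4 := mul_le_mul_of_nonneg_right h2 hL0.le
      linarith
    have h5 : u ^ 4 * η ^ 2 = 1 := by
      have : u ^ 4 * η ^ 2 = (u ^ 2 * η) ^ 2 := by ring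
      rw [this, hu2, one_pow]
    have h6 : u ^ 4 * 1 ≤ u ^ 4 * (η ^ 2 * L) := mul_le_mul_of_nonneg_left h1 (by positivity)
    rw [← mul_assoc, h5, one_mul, mul_one] at h6
    exact h6
  have hdiv : ∀ x : ℝ, x / s = x * u := by
    intro x
    rw [hu]
    ring
  have hdivη : ∀ x : ℝ, x / η = x * u ^ 2 := by
    intro x
    rw [div_eq_iff hη.ne', mul_assoc, hu2, mul_one]
  -- R
  have hR1 : 2 * lam ≤ (⌈2 * lam⌉₊ : ℝ) := Nat.le_ceil _
  have hR2 : (⌈2 * lam⌉₊ : ℝ) ≤ 3 * lam := by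
    have := Nat.ceil_lt_add_one (by linarith : 0 ≤ 2 * lam)
    linarith
  generalize ⌈2 * lam⌉₊ = R at *
  -- j
  rw [hdiv, hdiv]
  have hj1 : 12 * u ≤ (⌈12 * u⌉₊ : ℝ) := Nat.le_ceil _
  have hj2 : (⌈12 * u⌉₊ : ℝ) ≤ 13 * u := by
    have := Nat.ceil_lt_add_one (by linarith : 0 ≤ 12 * u)
    linarith
  generalize ⌈12 * u⌉₊ = j at *
  have hR0 : (0 : ℝ) < R := by linarith
  have hj0 : (0 : ℝ) < j := by linarith
  have hlogn : Real.log (6 * n) ≤ lam + 5 := by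
    rw [Real.log_mul (by norm_num) (by linarith)]
    have h1 : Real.log 6 ≤ 6 - 1 := Real.log_le_sub_one_of_pos (by norm_num)
    have h2 : Real.log n ≤ lam := Real.log_le_log (by linarith) hnL
    linarith
  have hlogn0 : 0 ≤ Real.log (6 * n) := Real.log_nonneg (by linarith)
  have hcR : 2 * (2 * (R : ℝ) * (Real.log (6 * n) + 2) + 1) ≤ 98 * lam ^ 2 := by
    have h1 : 2 * (R : ℝ) * (Real.log (6 * n) + 2) ≤ 2 * (3 * lam) * (8 * lam) :=
      mul_le_mul (by linarith) (by linarith) (by linarith) (by linarith)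
    nlinarith
  have hC10 : 0 < C1 := by linarith
  refine ⟨?_, ?_, ?_, ?_, ?_, ?_, ?_, ?_, ?_, ?_⟩
  · have : (0 : ℕ) < R := by exact_mod_cast hR0
    exact this
  · push_cast
    have h1 := Real.quadratic_le_exp_of_nonneg (by linarith : 0 ≤ lam)
    rw [← hLexp] at h1
    nlinarith
  · have : (0 : ℕ) < j := by exact_mod_cast hj0
    exact this
  · rw [hdivη]
    have h1 : 1 ≤ u ^ 2 := one_le_pow₀ hu1
    have h2 : (1 : ℝ) ≤ 150 * j := by linarith
    nlinarith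
  · rw [hdivη]
    have h1 : 150 * (j : ℝ) * u ^ 2 ≤ 150 * (13 * u) * u ^ 2 :=
      mul_le_mul_of_nonneg_right (by linarith) (by positivity)
    have h2 : 150 * (13 * u) * u ^ 2 ≤ 1950 * u ^ 4 := by
      have : u ^ 3 ≤ u ^ 4 := pow_le_pow_right₀ hu1 (by norm_num)
      nlinarith
    have h3 : 1950 * u ^ 4 ≤ L * L := mul_le_mul hL1950 hu4 (by positivity) hL0.le
    rw [sq]
    linarith
  · have h1 : (j : ℝ) / (150 * (j : ℝ) / η) = η / 150 := by
      field_simp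
    have h2 : 1 / (j : ℝ) ^ 2 ≤ η / 144 := by
      rw [div_le_iff₀ (by positivity)]
      have h3 : (12 * u) ^ 2 ≤ (j : ℝ) ^ 2 := pow_le_pow_left₀ (by positivity) hj1 2
      have h4 : η / 144 * (12 * u) ^ 2 ≤ η / 144 * (j : ℝ) ^ 2 :=
        mul_le_mul_of_nonneg_left h3 (by positivity)
      have h5 : η / 144 * (12 * u) ^ 2 = u ^ 2 * η := by ring
      rw [h5, hu2] at h4
      exact h4
    rw [h1]
    linarith
  · have h1 : C1 * lam ^ 4 * u ≤ L := by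
      have h2 := hCe lam hCe'
      rw [← hLexp] at h2
      have h3 : (C1 * lam ^ 4 * u) ^ 2 ≤ L ^ 2 := by
        have h4 : (C1 * lam ^ 4 * u) ^ 2 = (C1 ^ 2 * lam ^ 8) * u ^ 2 := by ring
        have h5 : u ^ 2 ≤ u ^ 4 := pow_le_pow_right₀ hu1 (by norm_num)
        rw [h4, sq L]
        exact mul_le_mul h2 (h5.trans hu4) (by positivity) hL0.le
      exact le_of_sq_le_sq h3 hL0.le
    refine h1.trans ?_
    have h2 : (2 : ℝ) ^ R = Real.exp (R * Real.log 2) := by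
      rw [mul_comm, ← Real.rpow_def_of_pos two_pos, Real.rpow_natCast]
    rw [h2, hLexp, Real.exp_le_exp]
    have h3 := Real.log_two_gt_d9
    have h4 : 2 * lam * (1 / 2) ≤ (R : ℝ) * Real.log 2 :=
      mul_le_mul hR1 (by linarith) (by norm_num) hR0.le
    linarith
  · refine hcR.trans ?_
    have h1 : lam ^ 2 ≤ lam ^ 4 := pow_le_pow_right₀ hlam1 (by norm_num)
    have h2 : 98 * lam ^ 2 ≤ C1 * lam ^ 4 := mul_le_mul hC1 h1 (by positivity) hC10.le
    have h3 : C1 * lam ^ 4 * 1 ≤ C1 * lam ^ 4 * u := mul_le_mul_of_nonneg_left hu1 (by positivity)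
    linarith
  · have h1 : 4 * (10 * (R : ℝ) ^ 2 * (C1 * lam ^ 4 * u) * j) ≤
        4 * (10 * (3 * lam) ^ 2 * (C1 * lam ^ 4 * u) * (13 * u)) := by
      have h2 : (R : ℝ) ^ 2 ≤ (3 * lam) ^ 2 := pow_le_pow_left₀ hR0.le hR2 2
      have h3 : (10 * (R : ℝ) ^ 2 * (C1 * lam ^ 4 * u)) * j ≤
          (10 * (3 * lam) ^ 2 * (C1 * lam ^ 4 * u)) * (13 * u) :=
        mul_le_mul (mul_le_mul_of_nonneg_right (by linarith) (by positivity)) hj2 hj0.le
          (by positivity)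
      linarith
    refine h1.trans ?_
    have h4 : 4680 * C1 * lam ^ 7 ≤ k * η := by
      refine le_trans ?_ hkη
      refine mul_le_mul_of_nonneg_right ?_ (by positivity)
      exact (le_max_right _ _).trans (le_max_right _ _)
    have h5 : 4680 * C1 * lam ^ 6 ≤ k * η := by
      refine le_trans ?_ h4
      refine mul_le_mul_of_nonneg_left (pow_le_pow_right₀ hlam1 (by norm_num)) (by positivity)
    have h6 : 4680 * C1 * lam ^ 6 * u ^ 2 ≤ k * η * u ^ 2 :=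
      mul_le_mul_of_nonneg_right h5 (by positivity)
    have h7 : (k : ℝ) * η * u ^ 2 = k := by
      rw [mul_assoc, mul_comm η, hu2, mul_one]
    rw [h7] at h6
    refine le_trans (le_of_eq ?_) h6
    ring
  · have h1 : (8 : ℝ) ≤ Real.exp 7 := by
      have := Real.add_one_le_exp (7 : ℝ)
      linarith
    have h2 : 8 * Real.exp (1 + 2 * (2 * (R : ℝ) * (Real.log (6 * n) + 2) + 1)) ≤
        Real.exp 7 * Real.exp (1 + 2 * (2 * (R : ℝ) * (Real.log (6 * n) + 2) + 1)) :=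
      mul_le_mul_of_nonneg_right h1 (Real.exp_pos _).le
    refine h2.trans ?_
    rw [← Real.exp_add, Real.exp_le_exp]
    have h3 : 1 ≤ lam ^ 2 := one_le_pow₀ hlam1
    linarith

theorem lamex_pos {Q : ℕ} (x z : SSm Q) : posS (x * z) = posS x + posS z := by
  unfold posS
  rw [Prod.fst_mul, Prod.snd_mul, Prod.fst_mul, toAdd_mul, toAdd_mul]
  abel

theorem lamex_EC {Q : ℕ} [NeZero Q] (A : Finset (ℕ × ℕ)) (hA : A.Nonempty)
    (v : ℕ × ℕ → ZMod Q) (r : ZMod Q) :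
    (mAS A hA v).EC (fun a => ch (r * posS a)) = (∑ a ∈ A, ch (r * v a)) / A.card := by
  have h1 : (mAS A hA v).EC (fun a => ch (r * posS a)) =
      (Law.unif A hA).EC (fun a => ch (r * v a)) := by
    unfold mAS
    rw [Law.map_EC]
    congr 1
    funext a
    unfold posS
    simp
  rw [h1]
  apply Complex.ext
  · show (Law.unif A hA).E (fun a => (ch (r * v a)).re) = _
    rw [Law.unif_E, Complex.div_natCast_re, Complex.re_sum]
  · show (Law.unif A hA).E (fun a => (ch (r * v a)).im) = _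
    rw [Law.unif_E, Complex.div_natCast_im, Complex.im_sum]

theorem lamex_gam {Q : ℕ} (C2 : Finset (ZMod Q)) (hC2 : C2.Nonempty) (x : ZMod Q) :
    (Law.map posS (gamS C2 hC2)).pm x ≤ 1 / C2.card := by
  classical
  unfold Law.pm gamS
  rw [Law.map_E, Law.map_E, Law.unif_E]
  refine div_le_div_of_nonneg_right ?_ (Nat.cast_nonneg _)
  have h1 : ∀ u : ZMod Q, posS ((Multiplicative.ofAdd u, 1, 1) : SSm Q) = u := by
    intro u
    unfold posS
    simp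
  refine (le_of_eq (Finset.sum_congr rfl fun u _ => ?_)).trans
    (?_ : ∑ u ∈ C2, (if u = x then (1 : ℝ) else 0) ≤ 1)
  · rw [h1]
    by_cases hux : u = x
    · simp [hux]
    · simp [hux]
  · rw [Finset.sum_ite_eq' C2 x]
    split_ifs <;> norm_num

theorem lam_exists (CT C' : ℝ) (hCT : 0 < CT) (hF : F2aProp CT C') : ∃ c0 : ℝ, 0 < c0 ∧ ∃ C : ℝ,
    ∀ (N k : ℕ) (L y η : ℝ) [NeZero (QQ N L)], RegF C N k L y η →
    η * (k : ℝ) ^ 2 ≤ c0 * Real.log y →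
    ∃ (hA : (AA L y η).Nonempty) (B : ℝ) (r : ℕ) (Lam : Law (GN (QQ N L))), 1 ≤ B ∧ B ≤ L ^ 2 ∧
      4 * r ≤ k ∧ Law.Dom (2 * B ^ r) Lam (stp (AA L y η) hA (val N (QQ N L)) ^ r) ∧
      ∑ t ∈ BadS N L y η (v2 CT k L η), ‖chf Lam t‖ ^ 2 ≤ Real.exp (C * Real.log L ^ 2) := by
  obtain ⟨c0, hc0, Cn, hnu⟩ := nu_high
  obtain ⟨Cl, hlow⟩ := card_LowS
  obtain ⟨Cb, hbad⟩ := bad_bohr CT C' hCT hF
  obtain ⟨Cm, hmm⟩ := card_MM
  obtain ⟨Cη, hCη⟩ := η_small 1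
  obtain ⟨Cp, hpar⟩ := lamex_params (max 98 Cb) (le_max_left _ _)
  refine ⟨c0, hc0, max (max (max Cn Cl) (max Cb Cm)) (max (max Cη Cp) 106), ?_⟩
  intro N k L y η _ hR hk
  have hRn := hR.mono (C' := Cn) (((le_max_left _ _).trans (le_max_left _ _)).trans (le_max_left _ _))
  have hRl := hR.mono (C' := Cl) (((le_max_right _ _).trans (le_max_left _ _)).trans (le_max_left _ _))
  have hRb := hR.mono (C' := Cb) (((le_max_left _ _).trans (le_max_right _ _)).trans (le_max_left _ _))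
  have hRm := hR.mono (C' := Cm) (((le_max_right _ _).trans (le_max_right _ _)).trans (le_max_left _ _))
  have hRη := hR.mono (C' := Cη) (((le_max_left _ _).trans (le_max_left _ _)).trans (le_max_right _ _))
  have hRp := hR.mono (C' := Cp) (((le_max_right _ _).trans (le_max_left _ _)).trans (le_max_right _ _))
  have hη := hR.η_pos
  have hη1 : η ≤ 1 := by
    have := hCη N k L y η hRη
    linarith
  have hlam := hR.one_le_logL
  -- A is not empty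
  have hA : (AA L y η).Nonempty := by
    unfold AA
    rw [Finset.nonempty_product]
    constructor
    · rw [← Finset.card_pos]
      have h1 := hmm N k L y η hRm
      have h2 := hR.ypos
      have h3 : (0 : ℝ) < (MM y (K0 L)).card := by linarith
      exact_mod_cast h3
    · rw [Finset.nonempty_range_iff]
      unfold Rn
      exact (Nat.ceil_pos.2 (by positivity)).ne'
  obtain ⟨hl1, hl2⟩ := hlow N k L y η hRl
  obtain ⟨p1, p2, p3, p4, p5, p6, p7, p8, p9, p10⟩ := hpar N k L y η hRp (LowS N L η).card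
    (by exact_mod_cast hl1) hl2
  generalize ⌈2 * Real.log L⌉₊ = R at *
  generalize ⌈12 / Real.sqrt η⌉₊ = j at *
  generalize 150 * (j : ℝ) / η = B at *
  obtain ⟨Cc, Cpp, C2, b1, b2, b3, b4, b5, b6⟩ := hbad N k L y η hRb (R + 1) (by omega) p2
  have hν : ∀ r, r ∉ LowS N L η →
      ‖(mAS (AA L y η) hA (val N (QQ N L))).EC fun a => ch (r * posS a)‖ ^ 2 ≤ 1 - η := by
    intro r hr
    rw [lamex_EC]
    have h1 := hnu N k L y η hRn hk r hr
    unfold nu at h1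
    have h2 := pow_le_pow_left₀ (norm_nonneg _) h1 2
    refine h2.trans ?_
    nlinarith
  have hQ0 : (0 : ℝ) < (QQ N L : ℕ) := by
    exact_mod_cast Nat.pos_of_ne_zero (NeZero.ne (QQ N L))
  have hC2 : (0 : ℝ) < C2.card := by exact_mod_cast b2.card_pos
  have hl : ∀ x, (Law.map posS (gamS C2 b2)).pm x ≤
      Real.exp (max 98 Cb * Real.log L ^ 4 / Real.sqrt η) / (QQ N L : ℕ) := by
    intro x
    refine (lamex_gam C2 b2 x).trans ?_
    rw [div_le_div_iff₀ hC2 hQ0, one_mul, ← div_le_iff₀ hC2]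
    refine b6.trans (Real.exp_le_exp.2 ?_)
    refine div_le_div_of_nonneg_right ?_ (Real.sqrt_nonneg _)
    exact mul_le_mul_of_nonneg_right (le_max_right _ _) (by positivity)
  obtain ⟨Z, r, hr, hZ, hZs⟩ := iter posS lamex_pos (gamS C2 b2)
    (mAS (AA L y η) hA (val N (QQ N L))) η hη (LowS N L η) hν hl1 j p3 B p4 p6 _ hl R p1 p7 p8
  obtain ⟨Lam, hLam, hsum⟩ := transfer (AA L y η) hA (val N (QQ N L)) Cc Cpp C2
    (BadS N L y η (v2 CT k L η)) b1 b2 (R + 1) r b3 b4 b5 _ _ Z hZ hZs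
  refine ⟨hA, B, r, Lam, p4, p5, ?_, hLam, ?_⟩
  · have h1 : (4 : ℝ) * r ≤ k := (mul_le_mul_of_nonneg_left hr (by norm_num)).trans p9
    exact_mod_cast h1
  · refine hsum.trans (p10.trans (Real.exp_le_exp.2 ?_))
    refine mul_le_mul_of_nonneg_right ?_ (by positivity)
    exact (le_max_right _ _).trans (le_max_right _ _)

end MP14ee70.TY
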